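import Pool.Agent.MWV.Stmts

set_option autoImplicit false

/-!
# Squad MWV (MP_23468a_al): row LBK, content and order in the main blocks of the large words
-/

namespace Pool.Agent.MWV.H37

open Pool.Agent.Helper14_MV Pool.Agent.Helper2_MV Pool.Agent.MWV

/-- the position key: the light `3 e + 1` has key `2 e`, the marker `3 j + 3` has key `2 j + 1` -/
def ky (a : ℕ) : ℕ := if a % 3 = 1 then 2 * (a / 3) else 2 * ((a - 3) / 3) + 1

theorem ky_l (i : ℕ) : ky (3 * i + 1) = 2 * i := by
  unfold ky
  rw [if_pos (by omega)]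
  omega

theorem ky_m (j : ℕ) : ky (3 * j + 3) = 2 * j + 1 := by
  unfold ky
  rw [if_neg (by omega)]
  omega

/-- sorted by the key -/
abbrev Srt (l : List ℕ) : Prop := l.Pairwise (fun a b => ky a < ky b)

/-- the large block without the heavy letters `0` and `3` -/
def KK (g : ℕ → Bool) (k : ℕ) : List ℕ := 1 :: (cr g [] 1 k ++ [3 * (k + 2) + 1])

theorem mem_mk (g : ℕ → Bool) (j a : ℕ) : a ∈ mk g j ↔ g j = true ∧ a = 3 * j + 3 := by
  unfold mk
  by_cases h : g j = true
  · rw [if_pos h]
    simp [h]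
  · rw [if_neg h]
    simp [h]

theorem mem_cr (g : ℕ → Bool) : ∀ k a, a ∈ cr g [] 1 k ↔
    (∃ i, 1 ≤ i ∧ i ≤ k + 1 ∧ a = 3 * i + 1) ∨ ∃ j, 1 ≤ j ∧ j ≤ k ∧ g j = true ∧ a = 3 * j + 3
  | 0, a => by
    unfold cr
    rw [List.mem_singleton]
    constructor
    · intro h
      exact Or.inl ⟨1, le_rfl, le_rfl, h⟩
    · rintro (⟨i, h1, h2, h3⟩ | ⟨j, h1, h2, _⟩)
      · have : i = 1 := by omega
        rw [h3, this]
      · omega
  | k + 1, a => by
    unfold cr
    rw [List.mem_append, mem_cr g k a, List.mem_append, mem_mk, List.nil_append,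
      List.mem_singleton]
    constructor
    · rintro ((⟨i, h1, h2, h3⟩ | ⟨j, h1, h2, h3, h4⟩) | ⟨h1, h2⟩ | h1)
      · exact Or.inl ⟨i, h1, by omega, h3⟩
      · exact Or.inr ⟨j, h1, by omega, h3, h4⟩
      · exact Or.inr ⟨k + 1, by omega, le_rfl, h1, h2⟩
      · exact Or.inl ⟨k + 1 + 1, by omega, le_rfl, by omega⟩
    · rintro (⟨i, h1, h2, h3⟩ | ⟨j, h1, h2, h3, h4⟩)
      · by_cases h : i ≤ k + 1
        · exact Or.inl (Or.inl ⟨i, h1, h, h3⟩)
        · exact Or.inr (Or.inr (by omega))
      · by_cases h : j ≤ k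
        · exact Or.inl (Or.inr ⟨j, h1, h, h3, h4⟩)
        · have : j = k + 1 := by omega
          subst this
          exact Or.inr (Or.inl ⟨h3, h4⟩)

theorem srt_cr (g : ℕ → Bool) : ∀ k, Srt (cr g [] 1 k)
  | 0 => by
    unfold cr
    exact List.pairwise_singleton _ _
  | k + 1 => by
    unfold cr
    rw [List.nil_append]
    refine List.pairwise_append.2 ⟨srt_cr g k, List.pairwise_append.2 ⟨?_, List.pairwise_singleton _ _,
      ?_⟩, ?_⟩
    · unfold mk
      split
      · exact List.pairwise_singleton _ _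
      · exact List.Pairwise.nil
    · intro a ha b hb
      rw [mem_mk] at ha
      rw [List.mem_singleton] at hb
      rw [ha.2, hb, ky_m, ky_l]
      omega
    · intro a ha b hb
      have h1 : 2 * (k + 1) + 1 ≤ ky b := by
        rw [List.mem_append, mem_mk, List.mem_singleton] at hb
        rcases hb with ⟨_, hb⟩ | hb
        · rw [hb, ky_m]
        · rw [hb, ky_l]
          omega
      have h2 : ky a ≤ 2 * (k + 1) := by
        rw [mem_cr] at ha
        rcases ha with ⟨i, _, h3, h4⟩ | ⟨j, _, h3, _, h4⟩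
        · rw [h4, ky_l]
          omega
        · rw [h4, ky_m]
          omega
      show ky a < ky b
      omega

theorem mem_KK (g : ℕ → Bool) (k a : ℕ) : a ∈ KK g k ↔
    (∃ i, i ≤ k + 2 ∧ a = 3 * i + 1) ∨ ∃ j, 1 ≤ j ∧ j ≤ k ∧ g j = true ∧ a = 3 * j + 3 := by
  unfold KK
  rw [List.mem_cons, List.mem_append, mem_cr, List.mem_singleton]
  constructor
  · rintro (h | (⟨i, h1, h2, h3⟩ | h) | h)
    · exact Or.inl ⟨0, by omega, h⟩
    · exact Or.inl ⟨i, by omega, h3⟩
    · exact Or.inr h
    · exact Or.inl ⟨k + 2, le_rfl, h⟩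
  · rintro (⟨i, h1, h2⟩ | h)
    · rcases Nat.eq_zero_or_pos i with h3 | h3
      · exact Or.inl (by rw [h2, h3])
      · by_cases h4 : i ≤ k + 1
        · exact Or.inr (Or.inl (Or.inl ⟨i, h3, h4, h2⟩))
        · have : i = k + 2 := by omega
          exact Or.inr (Or.inr (by rw [h2, this]))
    · exact Or.inr (Or.inl (Or.inr h))

theorem srt_KK (g : ℕ → Bool) (k : ℕ) : Srt (KK g k) := by
  unfold KK
  refine List.pairwise_cons.2 ⟨?_, List.pairwise_append.2 ⟨srt_cr g k, List.pairwise_singleton _ _,
    ?_⟩⟩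
  · intro a ha
    have h0 : ky 1 = 0 := ky_l 0
    show ky 1 < ky a
    rw [h0]
    rw [List.mem_append, mem_cr, List.mem_singleton] at ha
    rcases ha with (⟨i, h1, _, h4⟩ | ⟨j, _, _, _, h4⟩) | h4
    · rw [h4, ky_l]
      omega
    · rw [h4, ky_m]
      omega
    · rw [h4, ky_l]
      omega
  · intro a ha b hb
    rw [List.mem_singleton] at hb
    rw [mem_cr] at ha
    show ky a < ky b
    rw [hb, ky_l]
    rcases ha with ⟨i, _, h3, h4⟩ | ⟨j, _, h3, _, h4⟩
    · rw [h4, ky_l]
      omega
    · rw [h4, ky_m]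
      omega

theorem srt_nodup {l : List ℕ} (h : Srt l) : l.Nodup := by
  refine List.Pairwise.imp ?_ h
  intro a b hab hne
  subst hne
  exact lt_irrefl _ hab

/-- a filter of a sorted list is determined by its elements -/
theorem flt (l : List ℕ) (p : ℕ → Bool) (r : List ℕ) (hl : Srt l) (hr : Srt r)
    (h : ∀ a, (a ∈ l ∧ p a = true) ↔ a ∈ r) : l.filter p = r := by
  have h1 : Srt (l.filter p) := hl.filter p
  have h2 : (l.filter p).Perm r := by
    refine (List.perm_ext_iff_of_nodup (srt_nodup h1) (srt_nodup hr)).2 ?_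
    intro a
    rw [List.mem_filter]
    exact h a
  refine List.Perm.eq_of_pairwise ?_ h1 hr h2
  intro a b _ _ hab hba
  exact absurd (lt_trans hab hba) (lt_irrefl _)

theorem fX (N c : ℕ) (p : ℕ → Bool) (h : p c = false) : (X N c).filter p = [] := by
  rw [List.filter_eq_nil_iff]
  intro a ha
  rw [List.eq_of_mem_replicate ha, h]
  exact Bool.false_ne_true

/-- the filters of the large block which remove `0` and `3` -/
theorem lb_filter (N : ℕ) (g : ℕ → Bool) (k d : ℕ) (p : ℕ → Bool) (h0 : p 0 = false)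
    (h3 : p 3 = false) (hd : d ≤ 1) : (Lb N g k d).filter p = (KK g k).filter p := by
  unfold Lb Lp
  rw [List.filter_filter]
  have hq0 : (fun a => p a && decide (a ≠ 3 * (1 - d))) 0 = false := by
    show (p 0 && _) = false
    rw [h0, Bool.false_and]
  have hq3 : (fun a => p a && decide (a ≠ 3 * (1 - d))) 3 = false := by
    show (p 3 && _) = false
    rw [h3, Bool.false_and]
  have e1 : X N 0 ++ 1 :: (X N 3 ++ (cr g [] 1 k ++ (X N 0 ++ (3 * (k + 2) + 1) :: X N 3))) =
      X N 0 ++ ([1] ++ (X N 3 ++ (cr g [] 1 k ++ (X N 0 ++ ([3 * (k + 2) + 1] ++ X N 3))))) := rfl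
  rw [e1, List.filter_append, List.filter_append, List.filter_append, List.filter_append,
    List.filter_append, List.filter_append, fX _ _ _ hq0, fX _ _ _ hq3, List.nil_append,
    List.nil_append, List.nil_append, List.append_nil]
  rw [← List.filter_append, ← List.filter_append]
  refine List.filter_congr ?_
  intro a ha
  have ha' : a ∈ KK g k := ha
  rw [mem_KK] at ha'
  have : a ≠ 3 * (1 - d) := by
    rcases ha' with ⟨i, _, h4⟩ | ⟨j, h5, h4, _, h6⟩
    · omega
    · omega
  rw [decide_eq_true this, Bool.and_true]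

theorem mem_lb (N : ℕ) (g : ℕ → Bool) (k d a : ℕ) (hN : 1 ≤ N) (hd : d ≤ 1) :
    a ∈ Lb N g k d ↔ a = 3 * d ∨ a ∈ KK g k := by
  unfold Lb Lp KK
  rw [List.mem_filter]
  simp only [List.mem_append, List.mem_cons, List.mem_replicate, decide_eq_true_eq,
    List.not_mem_nil, or_false]
  constructor
  · rintro ⟨(⟨_, h⟩ | h | ⟨_, h⟩ | h | ⟨_, h⟩ | h | ⟨_, h⟩), h'⟩
    · left
      omega
    · exact Or.inr (Or.inl h)
    · left
      omega
    · exact Or.inr (Or.inr (Or.inl h))
    · left
      omega
    · exact Or.inr (Or.inr (Or.inr h))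
    · left
      omega
  · rintro (h | h)
    · refine ⟨?_, by omega⟩
      rcases Nat.eq_zero_or_pos d with h1 | h1
      · exact Or.inl ⟨by omega, by omega⟩
      · exact Or.inr (Or.inr (Or.inl ⟨by omega, by omega⟩))
    · have h2 : a ∈ KK g k := by
        unfold KK
        rw [List.mem_cons, List.mem_append, List.mem_singleton]
        exact h
      have : a ≠ 3 * (1 - d) := by
        rw [mem_KK] at h2
        rcases h2 with ⟨i, _, h4⟩ | ⟨j, h5, h4, _, h6⟩
        · omega
        · omega
      refine ⟨?_, this⟩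
      rcases h with h | h | h
      · exact Or.inr (Or.inl h)
      · exact Or.inr (Or.inr (Or.inr (Or.inl h)))
      · exact Or.inr (Or.inr (Or.inr (Or.inr (Or.inr (Or.inl h)))))

/-- **LBK** -/
theorem lbk (h : PpmStmt) : LbkStmt := by
  intro N g k d P Q hN hk hd hPQ
  have hpm := (h k P Q hk hPQ).1
  have hmem : ∀ e, e ∈ PP k P ++ PP k Q ↔ e ≤ k + 2 := by
    intro e
    rw [hpm.mem_iff, List.mem_range]
    omega
  refine ⟨⟨?_, ?_⟩, ?_, ?_, ?_, ?_⟩
  · intro a ha
    rw [mem_lb N g k d a hN hd, mem_KK] at ha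
    rcases ha with ha | ⟨i, h1, h2⟩ | ⟨j, _, _, _, h2⟩
    · left
      omega
    · exact Or.inr ⟨i, (hmem i).2 h1, h2⟩
    · left
      omega
  · intro e he
    have he' := (hmem e).1 he
    rw [List.count_eq_length_filter]
    have h1 : (Lb N g k d).filter (fun a => a == 3 * e + 1) = [3 * e + 1] := by
      rw [lb_filter N g k d _ (by simp) (by simp; omega) hd]
      refine flt _ _ _ (srt_KK g k) (List.pairwise_singleton _ _) ?_
      intro a
      rw [List.mem_singleton, beq_iff_eq]
      constructor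
      · exact fun h => h.2
      · intro h
        exact ⟨(mem_KK g k a).2 (Or.inl ⟨e, he', h⟩), h⟩
    rw [h1]
    rfl
  · intro a ha
    rw [mem_lb N g k d a hN hd, mem_KK]
    constructor
    · rintro (h1 | ⟨i, _, h1⟩ | h1)
      · exact Or.inl h1
      · omega
      · exact Or.inr h1
    · rintro (h1 | h1)
      · exact Or.inl h1
      · exact Or.inr (Or.inr h1)
  · intro i j hij hj
    rw [lb_filter N g k d _ (by simp) (by simp; omega) hd]
    refine flt _ _ _ (srt_KK g k) ?_ ?_
    · refine List.pairwise_pair.2 ?_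
      show ky _ < ky _
      rw [ky_l, ky_l]
      omega
    · intro a
      rw [mem_KK, decide_eq_true_eq]
      simp only [List.mem_cons, List.not_mem_nil, or_false]
      constructor
      · exact fun h => h.2
      · intro h
        refine ⟨Or.inl ?_, h⟩
        rcases h with h | h
        · exact ⟨i, by omega, h⟩
        · exact ⟨j, hj, h⟩
  · intro i j hi hj1 hjk hg
    rw [lb_filter N g k d _ (by simp) (by simp; omega) hd]
    refine flt _ _ _ (srt_KK g k) ?_ ?_
    · split
      · refine List.pairwise_pair.2 ?_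
        show ky _ < ky _
        rw [ky_l, ky_m]
        omega
      · refine List.pairwise_pair.2 ?_
        show ky _ < ky _
        rw [ky_l, ky_m]
        omega
    · intro a
      rw [mem_KK, decide_eq_true_eq]
      have h1 : (a ∈ if i ≤ j then [3 * i + 1, 3 * j + 3] else [3 * j + 3, 3 * i + 1]) ↔
          (a = 3 * i + 1 ∨ a = 3 * j + 3) := by
        split
        · simp only [List.mem_cons, List.not_mem_nil, or_false]
        · simp only [List.mem_cons, List.not_mem_nil, or_false]
          exact or_comm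
      rw [h1]
      constructor
      · exact fun h => h.2
      · intro h
        refine ⟨?_, h⟩
        rcases h with h | h
        · exact Or.inl ⟨i, hi, h⟩
        · exact Or.inr ⟨j, hj1, hjk, hg, h⟩
  · intro j hj1 hjk hg
    rw [lb_filter N g k d _ (by simp) (by simp; omega) hd]
    refine flt _ _ _ (srt_KK g k) ?_ ?_
    · refine List.pairwise_cons.2 ⟨?_, List.pairwise_pair.2 ?_⟩
      · intro b hb
        simp only [List.mem_cons, List.not_mem_nil, or_false] at hb
        show ky _ < ky _
        rcases hb with hb | hb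
        · rw [hb, ky_l, ky_m]
          omega
        · rw [hb, ky_l, ky_l]
          omega
      · show ky _ < ky _
        rw [ky_l, ky_m]
        omega
    · intro a
      rw [mem_KK, decide_eq_true_eq]
      simp only [List.mem_cons, List.not_mem_nil, or_false]
      constructor
      · exact fun h => h.2
      · intro h
        refine ⟨?_, h⟩
        rcases h with h | h | h
        · exact Or.inl ⟨j, by omega, h⟩
        · exact Or.inr ⟨j, hj1, hjk, hg, h⟩
        · exact Or.inl ⟨j + 1, by omega, h⟩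

end Pool.Agent.MWV.H37
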